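import Pool.Agent.TH358.GP.Cls
import Pool.Agent.H39R2.GonP.Bridge

/-!
# The two last cohomology groups of Goncharov's complexes from `SpanDual F 0` and `SpanDual F 1`
-/

set_option autoImplicit false

namespace Pool.Agent.Run7.h360.GN

open scoped TensorProduct
open H39Gon H39Gon.E2

variable {F : Type} [Field F]

theorem e_none (j : ℕ) (y : Fin j → UV F) : e1e F j (tq F 2 j none y) = 0 := by
  rw [e1e_apply, e1ev_none]
  rfl

theorem e_zero (j : ℕ) (y : Fin j → UV F) : e1e F j (tq F 2 j (some 0) y) = 0 := by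
  rw [e1e_apply, e1ev_some, e1Psi_apply, e1Psi2_apply, e1cl_zero]
  unfold lq
  rw [(exteriorPower.ιMulti ℤ (j + 2)).map_coord_zero (i := 1) (by simp),
    TensorProduct.tmul_zero]

theorem e_one (j : ℕ) (y : Fin j → UV F) : e1e F j (tq F 2 j (some 1) y) = 0 := by
  rw [e1e_apply, e1ev_some, e1Psi_apply, e1Psi2_apply, e1cl_one]
  unfold lq
  rw [(exteriorPower.ιMulti ℤ (j + 2)).map_coord_zero (i := 1) (by simp),
    TensorProduct.tmul_zero]

theorem e_some (j : ℕ) (x : F) (y : Fin j → UV F) : e1e F j (tq F 2 j (some x) y) =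
    lq F (j + 2) (Fin.cons (cl (1 - x)) (Fin.cons (cl x) y)) := by
  rw [e1e_apply, e1ev_some, e1Psi_apply, e1Psi2_apply]

/-- a functional of the form `ev Ψ` that vanishes on the `{x}_2 ⊗ x ∧ y` factors through `e` -/
theorem step_gen (h1 : SpanDual F 1) (j : ℕ) (φ : TQ F 2 j →ₗ[ℚ] ℚ)
    (Ψ : UV F →ₗ[ℤ] UV F →ₗ[ℤ] MultilinearMap ℤ (fun _ : Fin 0 => UV F) (UV F [⋀^Fin j]→ₗ[ℤ] ℚ))
    (hΨ : ∀ a, Ψ a a = 0) (hev : toTheta φ = ev Ψ)
    (hφ : ∀ (i : ℕ) (hi : j = i + 1) (x : F) (y : Fin i → UV F), x ≠ 0 →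
      φ (tq F 2 j (some x) ((Fin.cons (cl x) y : Fin (i + 1) → UV F) ∘ Fin.cast hi)) = 0) :
    ∃ ψ : LQ F (j + 2) →ₗ[ℚ] ℚ, ∀ v, φ v = ψ (e1e F j v) := by
  have hnone : ∀ y, φ (tq F 2 j none y) = 0 := by
    intro y
    rw [← toTheta_apply, hev, ev_none]
    rfl
  have hsome : ∀ x y, φ (tq F 2 j (some x) y) =
      Ψ (cl (1 - x)) (cl x) (fun _ => cl x) y := by
    intro x y
    rw [← toTheta_apply, hev, ev_some]
  let Q : UV F →ₗ[ℤ] (UV F →ₗ[ℤ] (UV F [⋀^Fin j]→ₗ[ℤ] ℚ)) :=
    LinearMap.mk₂ ℤ (fun s v => Ψ v s Fin.elim0)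
      (fun a b c => by simp) (fun a b c => by simp) (fun a b c => by simp)
      (fun a b c => by simp)
  have hQ : ∀ s v, Q s v = Ψ v s (fun _ => s) := by
    intro s v
    change Ψ v s Fin.elim0 = _
    congr 1
    exact Subsingleton.elim _ _
  obtain ⟨Θ, hΘ⟩ := koszul_last j Q (by
      intro s
      rw [hQ, hΨ]
      rfl) (by
      intro i hi s v y
      subst hi
      have h1 := h1 (MultilinearMap.uncurryRight
        (M := fun _ : Fin (1 + 1) => UV F)
        ((flipTail y).compMultilinearMap (qOf Ψ))) (by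
          intro f hf0 hf1
          change qOf Ψ (fun _ => cl f) (cl (1 - f)) (Fin.cons (cl f) y) = 0
          rw [qOf_apply, ← hsome]
          exact hφ i rfl f y hf0) s v
      have h2 : qOf Ψ (fun _ => s) v (Fin.cons s y) = 0 := h1
      rw [qOf_apply] at h2
      rw [hQ]
      exact h2)
  refine ⟨ofAlt Θ, fun v => ?_⟩
  have h2 : φ = (ofAlt Θ) ∘ₗ (e1e F j) := by
    apply text
    intro x y
    rw [LinearMap.comp_apply]
    rcases x with _ | x
    · rw [hnone, e_none, map_zero]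
    · rw [e_some j x y, ofAlt_apply, hΘ, hQ, hsome]
  rw [h2]
  rfl

theorem comp_zero (j : ℕ) (x : F) (y : Fin j → UV F) :
    e1e F (j + 1) (tq F 2 (j + 1) (some x) (Fin.cons (cl x) y)) = 0 := by
  rw [e_some]
  unfold lq
  have h1 : exteriorPower.ιMulti ℤ (j + 1 + 2)
      (Fin.cons (cl (1 - x)) (Fin.cons (cl x)
        (Fin.cons (cl x) y : Fin (j + 1) → UV F) :
          Fin (j + 1 + 1) → UV F)) = 0 :=
    AlternatingMap.map_eq_zero_of_eq _ _ (i := ⟨1, by omega⟩) (j := ⟨2, by omega⟩)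
      (by rfl) (by simp [Fin.ext_iff])
  rw [h1, TensorProduct.tmul_zero]

/-- surjectivity of `e` -/
theorem e_surj (h0 : SpanDual F 0) (j : ℕ) : Function.Surjective (e1e F j) := by
  apply surjective_of_dual
  intro χ hχ
  apply lext
  intro z
  rw [LinearMap.zero_apply, ← toAlt_apply]
  have h1 : ∀ (y : Fin j → UV F) (s v : UV F),
      toAlt χ (Fin.cons v (Fin.cons s y)) = 0 := by
    intro y s v
    have h2 := h0 (MultilinearMap.ofSubsingleton ℤ (UV F)
      (UV F →ₗ[ℤ] ℚ) (0 : Fin 1)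
      (LinearMap.flip ((evalTail y) ∘ₗ (toAlt χ).curryLeft))) (by
        intro f hf0 hf1
        change toAlt χ (Fin.cons (cl (1 - f)) (Fin.cons (cl f) y)) = 0
        rw [toAlt_apply, ← e_some j f y]
        exact hχ _) s v
    exact h2
  have h3 := h1 (Fin.tail (Fin.tail z)) (Fin.tail z 0) (z 0)
  rwa [Fin.cons_self_tail, Fin.cons_self_tail] at h3

/-- the differential `e` of a family of differentials is `e1e` -/
theorem D_e (D : Differentials F) (j : ℕ) : D.e j = e1e F j := by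
  apply text
  intro x y
  rcases x with _ | x
  · rw [D.e_inf, e_none]
  · by_cases hx : x = 0
    · subst hx
      rw [D.e_zero, e_zero]
    · by_cases hx1 : x = 1
      · subst hx1
        rw [D.e_one, e_one]
      · rw [D.e_some j x y hx hx1, e_some]

/-- exactness for the fields with `EvS` -/
theorem exact_evS (hF : Pool.Agent.TH358.GP.EvS F) (h1 : SpanDual F 1) (D : Differentials F)
    (j : ℕ) : Function.Exact (D.d 0 j) (D.e (j + 1)) := by
  apply exact_of_dual
  · have h0 : (D.e (j + 1)) ∘ₗ (D.d 0 j) = 0 := by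
      apply text
      intro x y
      rw [LinearMap.comp_apply, LinearMap.zero_apply]
      rcases x with _ | x
      · rw [D.d_inf, map_zero]
      · by_cases hx : x = 0
        · subst hx
          rw [D.d_zero, map_zero]
        · rw [D.d_some _ _ _ _ hx, D_e]
          exact comp_zero j x y
    intro u
    exact LinearMap.congr_fun h0 u
  · intro φ hφ
    obtain ⟨Ψ, hΨ, hev⟩ := hF 0 _ (toTheta φ) (fun r hr => toTheta_R φ r hr)
    rw [D_e]
    apply step_gen h1 (j + 1) φ Ψ hΨ hev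
    intro i hi x y hx
    obtain rfl : j = i := by omega
    have h1 := hφ (tq F (0 + 3) j (some x) y)
    rw [D.d_some _ _ _ _ hx] at h1
    exact h1

end Pool.Agent.Run7.h360.GN
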