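import Pool.Agent.H39R2.GonP.Defs

/-!
# Definitions for the two last cohomology groups of Goncharov's complexes
-/

set_option autoImplicit false

namespace Pool.Agent.Run7.h360.GN

open GonP

/-- The subspace of `(B_2(F) ⊗ Λ^{j+1} F^*)_ℚ` spanned by the elements `{x}_2 ⊗ x ∧ y_1 ∧ ... ∧ y_j`,
`x ∈ F^*`, that is, the image of `(B_3(F) ⊗ Λ^j F^*)_ℚ`. -/
noncomputable def imD (F : Type) [Field F] (j : ℕ) : Submodule ℚ (TQ F 2 (j + 1)) :=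
  Submodule.span ℚ {w | ∃ (x : F) (y : Fin j → UV F), x ≠ 0 ∧
    w = tq 2 (j + 1) (some x) (Fin.cons (cl x) y)}

/-- The subspace of `(B_2(F) ⊗ Λ^{j+1} F^*)_ℚ` spanned by the elements
`(∑ n_i {x_i}_2) ⊗ y_1 ∧ ... ∧ y_{j+1}` with `∑ n_i (1 - x_i) ∧ x_i = 0` in `(Λ² F^*)_ℚ`, that is, the
image of `H^1(Γ(F,2) ⊗ ℚ) ⊗ Λ^{j+1} F^*`. -/
noncomputable def h1Mul (F : Type) [Field F] (j : ℕ) : Submodule ℚ (TQ F 2 (j + 1)) :=
  Submodule.span ℚ {w | ∃ (α : ZP F) (y : Fin (j + 1) → UV F), toRat (delta2 F α) = 0 ∧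
    w = toRat (tm (toQuo (R 2 F) α) (wedge y))}

/-- The differentials `e : (B_2(F) ⊗ Λ^j F^*)_ℚ → (Λ^{j+2} F^*)_ℚ` exist and are unique; they are
surjective: `H^n(Γ(F,n) ⊗ ℚ) = 0` for `n ≥ 2`; and the kernel of `e`, for `j + 1`, is the sum of
the image of `(B_3(F) ⊗ Λ^j F^*)_ℚ` and of the products of `H^1(Γ(F,2) ⊗ ℚ)` with `Λ^{j+1} F^*`:
`H^{n-1}(Γ(F,n) ⊗ ℚ)`, `n ≥ 3`, is generated by these products. In particular it vanishes if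
`H^1(Γ(F,2) ⊗ ℚ) = 0`. (`imD F j` is the image of every differential `d`.) -/
def LastTwo (F : Type) [Field F] : Prop :=
  ∃ e : ∀ j : ℕ, TQ F 2 j → LQ F (j + 2),
    (∀ j, IsE j (e j)) ∧ (∀ j e', IsE j e' → e' = e j) ∧
    (∀ j, Function.Surjective (e j)) ∧
    (∀ j (v : TQ F 2 (j + 1)), e (j + 1) v = 0 ↔ v ∈ imD F j ⊔ h1Mul F j) ∧
    (∀ j (d : TQ F 3 j → TQ F 2 (j + 1)), IsD 0 j d → ∀ v, v ∈ imD F j ↔ ∃ u, v = d u) ∧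
    (Function.Injective (e 0) → ∀ j (v : TQ F 2 (j + 1)), e (j + 1) v = 0 ↔ v ∈ imD F j)

end Pool.Agent.Run7.h360.GN
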