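import Pool.Agent.Run7.h360.GN.Core

/-!
# The kernel of `e` for fields with `SpanDual F 1`
-/

set_option autoImplicit false

namespace Pool.Agent.Run7.h360.GN

open scoped TensorProduct
open H39Gon H39Gon.E2

variable {F : Type} [Field F]

/-- every element of `ℚ ⊗ M` is a fraction -/
theorem clear {M : Type} [AddCommGroup M] (z : ℚ ⊗[ℤ] M) :
    ∃ (N : ℕ) (a : M), 0 < N ∧ (N : ℚ) • z = (1 : ℚ) ⊗ₜ[ℤ] a := by
  induction z using TensorProduct.induction_on with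
  | zero => exact ⟨1, 0, one_pos, by simp⟩
  | tmul q a =>
    refine ⟨q.den, q.num • a, q.den_pos, ?_⟩
    have h1 : (q.den : ℚ) * q = q.num • (1 : ℚ) := by
      rw [Rat.den_mul_eq_num, zsmul_one]
    rw [TensorProduct.smul_tmul', smul_eq_mul, h1, TensorProduct.smul_tmul]
  | add x y hx hy =>
    obtain ⟨N, a, hN, ha⟩ := hx
    obtain ⟨N', b, hN', hb⟩ := hy
    refine ⟨N * N', N' • a + N • b, Nat.mul_pos hN hN', ?_⟩
    have e1 : ((N * N' : ℕ) : ℚ) • x = (1 : ℚ) ⊗ₜ[ℤ] (N' • a) := by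
      rw [TensorProduct.tmul_smul, ← ha, Nat.cast_mul, mul_comm, mul_smul, Nat.cast_smul_eq_nsmul]
    have e2 : ((N * N' : ℕ) : ℚ) • y = (1 : ℚ) ⊗ₜ[ℤ] (N • b) := by
      rw [TensorProduct.tmul_smul, ← hb, Nat.cast_mul, mul_smul, Nat.cast_smul_eq_nsmul]
    rw [smul_add, e1, e2, TensorProduct.tmul_add]

/-- factorisation of a linear map through a map with a smaller kernel -/
theorem factor {U V W : Type} [AddCommGroup U] [Module ℚ U] [AddCommGroup V] [Module ℚ V]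
    [AddCommGroup W] [Module ℚ W] (f : U →ₗ[ℚ] V) (g : U →ₗ[ℚ] W)
    (h : ∀ u, f u = 0 → g u = 0) : ∃ L : V →ₗ[ℚ] W, ∀ u, g u = L (f u) := by
  obtain ⟨s, hs⟩ := f.rangeRestrict.exists_rightInverse_of_surjective
    (LinearMap.range_rangeRestrict f)
  obtain ⟨L, hL⟩ := LinearMap.exists_extend (g ∘ₗ s)
  refine ⟨L, fun u => ?_⟩
  have h1 : L (f u) = g (s (f.rangeRestrict u)) := by
    have := LinearMap.congr_fun hL (f.rangeRestrict u)
    simpa using this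
  rw [h1, ← sub_eq_zero, ← map_sub]
  apply h
  have h2 := LinearMap.congr_fun hs (f.rangeRestrict u)
  simp only [LinearMap.comp_apply, LinearMap.id_apply] at h2
  have h3 : f (s (f.rangeRestrict u)) = f u := congrArg Subtype.val h2
  rw [map_sub, h3, sub_self]

/-- `(α)_2 ⊗ y_1 ∧ ... ∧ y_j` -/
noncomputable def bq (j : ℕ) (α : ZP F) (y : Fin j → UV F) : TQ F 2 j :=
  (1 : ℚ) ⊗ₜ[ℤ] ((R 2 F).mkQ α ⊗ₜ[ℤ] exteriorPower.ιMulti ℤ j y)

theorem toTheta_bq {j : ℕ} (φ : TQ F 2 j →ₗ[ℚ] ℚ) (α : ZP F) (y : Fin j → UV F) :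
    toTheta φ α y = φ (bq j α y) := rfl

/-- a functional which vanishes on the `(α)_2 ⊗ y` with `δ_2 α` torsion is of the form `ev Ψ` -/
theorem ev_of_vanish {j : ℕ} (φ : TQ F 2 j →ₗ[ℚ] ℚ)
    (h : ∀ (α : ZP F) (y : Fin j → UV F), (1 : ℚ) ⊗ₜ[ℤ] delta2 F α = (0 : LQ F 2) →
      φ (bq j α y) = 0) :
    ∃ Ψ : UV F →ₗ[ℤ] UV F →ₗ[ℤ] MultilinearMap ℤ (fun _ : Fin 0 => UV F)
      (UV F [⋀^Fin j]→ₗ[ℤ] ℚ), (∀ a, Ψ a a = 0) ∧ toTheta φ = ev Ψ := by
  obtain ⟨L, hL⟩ := factor (LinearMap.baseChange ℚ (delta2 F))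
    (LinearMap.liftBaseChange ℚ (toTheta φ)) (by
      intro z hz
      obtain ⟨N, a, hN, ha⟩ := clear z
      have hN' : (N : ℚ) ≠ 0 := by exact_mod_cast hN.ne'
      have h1 : (1 : ℚ) ⊗ₜ[ℤ] delta2 F a = (0 : LQ F 2) := by
        have : LinearMap.baseChange ℚ (delta2 F) ((1 : ℚ) ⊗ₜ[ℤ] a) = 0 := by
          rw [← ha, map_smul, hz, smul_zero]
        rwa [LinearMap.baseChange_tmul] at this
      have h2 : LinearMap.liftBaseChange ℚ (toTheta φ) ((1 : ℚ) ⊗ₜ[ℤ] a) = 0 := by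
        rw [LinearMap.liftBaseChange_tmul, one_smul]
        ext y
        rw [toTheta_bq]
        exact h a y h1
      rw [← ha, map_smul] at h2
      exact (smul_eq_zero.1 h2).resolve_left hN')
  have hLx : ∀ α : ZP F, toTheta φ α = L ((1 : ℚ) ⊗ₜ[ℤ] delta2 F α) := by
    intro α
    have := hL ((1 : ℚ) ⊗ₜ[ℤ] α)
    rwa [LinearMap.liftBaseChange_tmul, one_smul, LinearMap.baseChange_tmul] at this
  let w0 : ⋀[ℤ]^0 (UV F) := exteriorPower.ιMulti ℤ 0 Fin.elim0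
  let Ψ : UV F →ₗ[ℤ] UV F →ₗ[ℤ] MultilinearMap ℤ (fun _ : Fin 0 => UV F)
      (UV F [⋀^Fin j]→ₗ[ℤ] ℚ) :=
    (e1Psi2 F 0).compr₂ ((MultilinearMap.constLinearEquivOfIsEmpty ℤ ℤ
      (fun _ : Fin 0 => UV F) (UV F [⋀^Fin j]→ₗ[ℤ] ℚ)).toLinearMap ∘ₗ
      (AddMonoidHom.toIntLinearMap L.toAddMonoidHom) ∘ₗ (LinearMap.applyₗ w0))
  have hΨ : ∀ (a b : UV F) (c : Fin 0 → UV F), Ψ a b c =
      L (lq F 2 (Fin.cons a (Fin.cons b Fin.elim0))) := by
    intro a b c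
    change L (e1Psi2 F 0 a b w0) = _
    rw [e1Psi2_apply]
  refine ⟨Ψ, fun a => ?_, ?_⟩
  · ext c : 1
    rw [hΨ]
    unfold lq
    rw [(exteriorPower.ιMulti ℤ 2).map_eq_zero_of_eq _ (i := 0) (j := 1) (by simp) (by simp),
      TensorProduct.tmul_zero, map_zero]
    rfl
  · apply Finsupp.lhom_ext'
    intro x
    apply LinearMap.ext_ring
    rcases x with _ | x
    · change toTheta φ (Finsupp.single none 1) = ev Ψ (Finsupp.single none 1)
      rw [ev_none]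
      apply toTheta_R
      exact Submodule.subset_span (Or.inl (Or.inr rfl))
    · change toTheta φ (Finsupp.single (some x) 1) = ev Ψ (Finsupp.single (some x) 1)
      rw [ev_some, hΨ, hLx]
      congr 2
      simp only [delta2, Finsupp.linearCombination_single, one_smul]
      congr 1

/-- the elements `{x}_2 ⊗ x ∧ y` and `(α)_2 ⊗ y`, `δ_2 α` torsion -/
def gens (F : Type) [Field F] (j : ℕ) : Set (TQ F 2 (j + 1)) :=
  {w | ∃ (x : F) (y : Fin j → UV F), x ≠ 0 ∧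
      w = tq F 2 (j + 1) (some x) (Fin.cons (cl x) y)} ∪
    {w | ∃ (α : ZP F) (y : Fin (j + 1) → UV F), (1 : ℚ) ⊗ₜ[ℤ] delta2 F α = (0 : LQ F 2) ∧
      w = bq (j + 1) α y}

/-- `e ((α)_2 ⊗ y) = δ_2 α ∧ y` -/
theorem e_bq {j : ℕ} (y : Fin j → UV F) :
    ∃ T : LQ F 2 →ₗ[ℚ] LQ F (j + 2), ∀ α : ZP F,
      e1e F j (bq j α y) = T ((1 : ℚ) ⊗ₜ[ℤ] delta2 F α) := by
  let G := exteriorPower.alternatingMapLinearEquiv (TC2.alt2 (e1Psi F j) (e1Psi_self F j))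
  have h : ev (e1Psi F j) = G ∘ₗ (delta2 F) := by
    refine Finsupp.lhom_ext fun x n => ?_
    rw [LinearMap.comp_apply]
    unfold delta2
    rw [Finsupp.linearCombination_single, map_smul]
    cases x with
    | none => rw [H39Gon.TC2.ev_single_none, map_zero, smul_zero]
    | some y =>
      rw [H39Gon.TC2.ev_single_some]
      congr 1
      rw [exteriorPower.alternatingMapLinearEquiv_apply_ιMulti]
      show _ = e1Psi F j (cl (1 - y)) (cl y) (fun i => i.elim0)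
      congr 1
      funext i
      exact i.elim0
  let g : ⋀[ℤ]^2 (UV F) →ₗ[ℤ] LQ F (j + 2) :=
    (LinearMap.applyₗ (exteriorPower.ιMulti ℤ j y)) ∘ₗ G
  refine ⟨LinearMap.liftBaseChange ℚ g, fun α => ?_⟩
  rw [LinearMap.liftBaseChange_tmul, one_smul]
  change e1e F j (bq j α y) = G (delta2 F α) (exteriorPower.ιMulti ℤ j y)
  rw [← LinearMap.comp_apply, ← h]
  unfold e1e e1lift bq
  rw [LinearMap.liftBaseChange_tmul, one_smul]
  rfl

/-- **The kernel of `e`.** -/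
theorem ker_e (h1 : SpanDual F 1) (j : ℕ) :
    LinearMap.ker (e1e F (j + 1)) = Submodule.span ℚ (gens F j) := by
  apply le_antisymm
  · intro v hv
    by_contra hn
    obtain ⟨φ, hφ, hv'⟩ := exists_dual_ne hn
    obtain ⟨Ψ, hΨ, hev⟩ := ev_of_vanish φ (fun α y h =>
      hφ _ (Submodule.subset_span (Or.inr ⟨α, y, h, rfl⟩)))
    obtain ⟨ψ, hψ⟩ := step_gen h1 (j + 1) φ Ψ hΨ hev (by
      intro i hi x y hx
      obtain rfl : j = i := by omega
      exact hφ _ (Submodule.subset_span (Or.inl ⟨x, y, hx, rfl⟩)))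
    apply hv'
    rw [hψ, LinearMap.mem_ker.1 hv, map_zero]
  · rw [Submodule.span_le]
    rintro w (⟨x, y, hx, rfl⟩ | ⟨α, y, h, rfl⟩)
    · exact comp_zero j x y
    · obtain ⟨T, hT⟩ := e_bq y
      change e1e F (j + 1) (bq (j + 1) α y) = 0
      rw [hT, h, map_zero]

/-- if `e` is injective on `(B_2)_ℚ`, then the `(α)_2 ⊗ y` with `δ_2 α` torsion vanish -/
theorem bq_zero (hinj : Function.Injective (e1e F 0)) {j : ℕ} (α : ZP F) (y : Fin j → UV F)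
    (h : (1 : ℚ) ⊗ₜ[ℤ] delta2 F α = (0 : LQ F 2)) : bq j α y = 0 := by
  obtain ⟨T, hT⟩ := e_bq (F := F) (j := 0) Fin.elim0
  have h1 : bq 0 α (Fin.elim0 : Fin 0 → UV F) = 0 := by
    apply hinj
    rw [hT, h, map_zero, map_zero]
  let c : ⋀[ℤ]^0 (UV F) →ₗ[ℤ] ⋀[ℤ]^j (UV F) := exteriorPower.alternatingMapLinearEquiv
    (AlternatingMap.constOfIsEmpty ℤ (UV F) (Fin 0) (exteriorPower.ιMulti ℤ j y))
  have hc : c (exteriorPower.ιMulti ℤ 0 Fin.elim0) = exteriorPower.ιMulti ℤ j y := by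
    simp only [c]
    rw [exteriorPower.alternatingMapLinearEquiv_apply_ιMulti]
    rfl
  let g : B 2 F ⊗[ℤ] (⋀[ℤ]^0 (UV F)) →ₗ[ℤ] TQ F 2 j :=
    (e1one (M := B 2 F ⊗[ℤ] (⋀[ℤ]^j (UV F)))) ∘ₗ
      TensorProduct.map (LinearMap.id : B 2 F →ₗ[ℤ] B 2 F) c
  have h2 : LinearMap.liftBaseChange ℚ g (bq 0 α (Fin.elim0 : Fin 0 → UV F)) = bq j α y := by
    unfold bq
    rw [LinearMap.liftBaseChange_tmul, one_smul]
    change e1one (((R 2 F).mkQ α) ⊗ₜ[ℤ] c (exteriorPower.ιMulti ℤ 0 Fin.elim0)) = _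
    rw [hc]
    rfl
  rw [← h2, h1]
  exact map_zero _

end Pool.Agent.Run7.h360.GN
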