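import Pool.Agent.Run7.h360.GN.Defs
import Pool.Agent.Run7.h360.GN.Ker
import Pool.Agent.Y775.W3.All

/-!
# The two last cohomology groups of Goncharov's complexes
-/

set_option autoImplicit false

namespace Pool.Agent.Run7.h360.GN

open GonP

section gen

variable (F : Type) [Field F]

/-- the differential `e` -/
noncomputable def eG (j : ℕ) : TQ F 2 j → LQ F (j + 2) :=
  fun x => (eLQ F (j + 2)).symm (H39Gon.e1e F j (eT F 0 j x))

theorem eG_spec (j : ℕ) : IsE j (eG F j) := by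
  unfold eG
  refine ⟨⟨fun x y => ?_, fun c x => ?_⟩, fun y => ?_, fun y => ?_, fun y => ?_,
    fun x y hx hx1 => ?_⟩
  · rw [map_add, map_add, map_add]
  · rw [map_smul, map_smul, map_smul]
  · beta_reduce
    rw [show eT F 0 j (tq 2 j none y) = H39Gon.tq F 2 j none y from
      eT_tq 0 j none y, e_none, map_zero]
  · beta_reduce
    rw [show eT F 0 j (tq 2 j (some 0) y) = H39Gon.tq F 2 j (some 0) y from
      eT_tq 0 j (some 0) y, e_zero, map_zero]
  · beta_reduce
    rw [show eT F 0 j (tq 2 j (some 1) y) = H39Gon.tq F 2 j (some 1) y from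
      eT_tq 0 j (some 1) y, e_one, map_zero]
  · beta_reduce
    rw [show eT F 0 j (tq 2 j (some x) y) = H39Gon.tq F 2 j (some x) y from
      eT_tq 0 j (some x) y, e_some]
    exact eLQ_symm_lq (j + 2) _

theorem eG_unique (j : ℕ) (e : TQ F 2 j → LQ F (j + 2)) (he : IsE j e) : e = eG F j := by
  have a := eG_spec F j
  apply text_P 0 j _ _ he.1 a.1
  intro x y
  rcases x with _ | x
  · exact (he.2.1 y).trans (a.2.1 y).symm
  · by_cases hx : x = 0
    · subst hx; exact (he.2.2.1 y).trans (a.2.2.1 y).symm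
    · by_cases hx1 : x = 1
      · subst hx1; exact (he.2.2.2.1 y).trans (a.2.2.2.1 y).symm
      · exact (he.2.2.2.2 x y hx hx1).trans (a.2.2.2.2 x y hx hx1).symm

theorem eG_surj (h0 : H39Gon.SpanDual F 0) (j : ℕ) : Function.Surjective (eG F j) :=
  (eLQ F (j + 2)).symm.surjective.comp ((e_surj h0 j).comp (eT F 0 j).surjective)

theorem toRat_delta2 (α : ZP F) : toRat (delta2 F α) = 0 ↔
    (1 : ℚ) ⊗ₜ[ℤ] H39Gon.delta2 F α = (0 : H39Gon.LQ F 2) := by
  rw [← delta2_eq]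
  have h : eLQ F 2 (toRat (delta2 F α)) = (1 : ℚ) ⊗ₜ[ℤ] (eL (UV F) 2 (delta2 F α)) := rfl
  rw [← h]
  exact (LinearEquiv.map_eq_zero_iff (eLQ F 2)).symm

theorem eT_bq (j : ℕ) (α : ZP F) (y : Fin j → UV F) :
    eT F 0 j (toRat (tm (toQuo (R 2 F) α) (wedge y))) = bq j α y := by
  unfold bq
  rw [← eL_wedge]
  rfl

theorem mem_sup (h1 : H39Gon.SpanDual F 1) (j : ℕ) (v : TQ F 2 (j + 1)) :
    eG F (j + 1) v = 0 ↔ v ∈ imD F j ⊔ h1Mul F j := by
  have h2 : eG F (j + 1) v = 0 ↔ H39Gon.e1e F (j + 1) (eT F 0 (j + 1) v) = 0 :=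
    LinearEquiv.map_eq_zero_iff _
  rw [h2, ← LinearMap.mem_ker, ker_e h1 j]
  have h3 : Submodule.span ℚ (gens F j) =
      (imD F j ⊔ h1Mul F j).map (eT F 0 (j + 1)).toLinearMap := by
    unfold imD h1Mul gens
    rw [← Submodule.span_union, Submodule.map_span, Set.image_union]
    congr 2
    · ext w
      constructor
      · rintro ⟨x, y, hx, rfl⟩
        exact ⟨_, ⟨x, y, hx, rfl⟩, eT_tq 0 (j + 1) _ _⟩
      · rintro ⟨_, ⟨x, y, hx, rfl⟩, rfl⟩
        exact ⟨x, y, hx, eT_tq 0 (j + 1) _ _⟩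
    · ext w
      constructor
      · rintro ⟨α, y, h, rfl⟩
        exact ⟨_, ⟨α, y, (toRat_delta2 F α).2 h, rfl⟩, eT_bq F (j + 1) α y⟩
      · rintro ⟨_, ⟨α, y, h, rfl⟩, rfl⟩
        exact ⟨α, y, (toRat_delta2 F α).1 h, eT_bq F (j + 1) α y⟩
  rw [h3]
  constructor
  · rintro ⟨u, hu, h⟩
    rwa [← (eT F 0 (j + 1)).injective h]
  · intro h
    exact ⟨v, h, rfl⟩

theorem h1Mul_eq_bot (hinj : Function.Injective (eG F 0)) (j : ℕ) : h1Mul F j = ⊥ := by
  have hinj' : Function.Injective (H39Gon.e1e F 0) := by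
    intro a b hab
    obtain ⟨a', rfl⟩ := (eT F 0 0).surjective a
    obtain ⟨b', rfl⟩ := (eT F 0 0).surjective b
    rw [hinj (show eG F 0 a' = eG F 0 b' from congrArg (eLQ F 2).symm hab)]
  rw [eq_bot_iff]
  unfold h1Mul
  rw [Submodule.span_le]
  rintro _ ⟨α, y, h, rfl⟩
  have h1 := bq_zero hinj' α y ((toRat_delta2 F α).1 h)
  rw [← eT_bq] at h1
  exact (LinearEquiv.map_eq_zero_iff _).1 h1

theorem span_tq (m j : ℕ) :
    Submodule.span ℚ {w : TQ F (m + 2) j | ∃ x y, w = tq (m + 2) j x y} = ⊤ := by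
  have h := text_P (F := F) m j
    (Submodule.span ℚ {w : TQ F (m + 2) j | ∃ x y, w = tq (m + 2) j x y}).mkQ
    (0 : TQ F (m + 2) j →ₗ[ℚ] _) (LinearMap.isLinear _) (LinearMap.isLinear _) (by
      intro x y
      rw [LinearMap.zero_apply, Submodule.mkQ_apply, Submodule.Quotient.mk_eq_zero]
      exact Submodule.subset_span ⟨x, y, rfl⟩)
  rw [eq_top_iff]
  intro v _
  have h2 := congrFun h v
  rwa [LinearMap.zero_apply, Submodule.mkQ_apply, Submodule.Quotient.mk_eq_zero] at h2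

theorem imD_eq (j : ℕ) (d : TQ F 3 j → TQ F 2 (j + 1)) (hd : IsD 0 j d) (v : TQ F 2 (j + 1)) :
    v ∈ imD F j ↔ ∃ u, v = d u := by
  constructor
  · intro hv
    have hle : imD F j ≤ LinearMap.range (hd.1.mk' d) := by
      unfold imD
      rw [Submodule.span_le]
      rintro _ ⟨x, y, hx, rfl⟩
      exact ⟨tq 3 j (some x) y, hd.2.2.2 x y hx⟩
    obtain ⟨u, hu⟩ := hle hv
    exact ⟨u, hu.symm⟩
  · rintro ⟨u, rfl⟩
    have hle : (⊤ : Submodule ℚ (TQ F 3 j)) ≤ (imD F j).comap (hd.1.mk' d) := by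
      rw [← span_tq F 1 j, Submodule.span_le]
      rintro _ ⟨x, y, rfl⟩
      change d (tq 3 j x y) ∈ imD F j
      rcases x with _ | x
      · rw [show d (tq 3 j none y) = 0 from hd.2.1 y]
        exact Submodule.zero_mem _
      · by_cases hx : x = 0
        · subst hx
          rw [show d (tq 3 j (some 0) y) = 0 from hd.2.2.1 y]
          exact Submodule.zero_mem _
        · rw [show d (tq 3 j (some x) y) = _ from hd.2.2.2 x y hx]
          exact Submodule.subset_span ⟨x, y, hx, rfl⟩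
    exact hle (Submodule.mem_top (x := u))

end gen

theorem lastTwo (F : Type) [Field F] (h0 : H39Gon.SpanDual F 0) (h1 : H39Gon.SpanDual F 1) :
    LastTwo F := by
  refine ⟨eG F, eG_spec F, eG_unique F, eG_surj F h0, mem_sup F h1, imD_eq F, ?_⟩
  intro hinj j v
  rw [mem_sup F h1, h1Mul_eq_bot F hinj, sup_bot_eq]

theorem lastTwo_rat : LastTwo ℚ := lastTwo ℚ Y775.W3.span_rat.1 Y775.W3.span_rat.2

theorem lastTwo_fun (p : ℕ) [Fact p.Prime] (k : Type) [Field k] [Algebra (ZMod p) k]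
    [Algebra.IsAlgebraic (ZMod p) k] : LastTwo (RatFunc k) :=
  lastTwo _ (Y775.W3.span_poly k p).1 (Y775.W3.span_poly k p).2

/-- the fields `k(x)`, `k` algebraic over `F_p` -/
theorem main_fun (p : ℕ) [Fact p.Prime] (k : Type) [Field k] [Algebra (ZMod p) k]
    [Algebra.IsAlgebraic (ZMod p) k] :
    ∃ D : Differentials (RatFunc k), (∀ D' : Differentials (RatFunc k), D' = D) ∧
      (∀ m, Function.Injective (D.d m 0)) ∧ Function.Injective (D.e 0) ∧
      (∀ j, Function.Exact (D.d 0 j) (D.e (j + 1))) ∧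
      (∀ j, Function.Surjective (D.e j)) := by
  have hk : Pool.Agent.TH358.GP.EvS (RatFunc k) := by
    haveI : CharP k p := charP_of_injective_algebraMap (algebraMap (ZMod p) k).injective p
    intro m W _ _ θ hθ
    exact H39Gon.ev_surj k p (H39Gon.frob_fix k p) m θ hθ
  obtain ⟨h0, h1⟩ := Y775.W3.span_poly k p
  obtain ⟨D⟩ := Pool.Agent.TH358.GP.exists_D hk
  refine ⟨ofD D, fun D' => unique (ofD D) D', fun m => ?_, ?_, fun j => ?_, fun j => ?_⟩
  · exact (eT (RatFunc k) m 1).symm.injective.comp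
      ((Pool.Agent.TH358.GP.inj_d hk D m).comp (eT (RatFunc k) (m + 1) 0).injective)
  · exact (eLQ (RatFunc k) 2).symm.injective.comp
      ((Pool.Agent.TH358.GP.inj_e hk D).comp (eT (RatFunc k) 0 0).injective)
  · exact exact_conj (eT (RatFunc k) 1 j) (eT (RatFunc k) 0 (j + 1)) (eLQ (RatFunc k) (j + 3)) _ _
      (exact_evS hk h1 D j)
  · have hs : Function.Surjective (D.e j) := by
      rw [D_e]
      exact e_surj h0 j
    exact (eLQ (RatFunc k) (j + 2)).symm.surjective.comp (hs.comp (eT (RatFunc k) 0 j).surjective)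

end Pool.Agent.Run7.h360.GN
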